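import Mathlib
import Pool.Agent.P.MP_98674e_lc.Defs
import Pool.Agent.P.MP_98674e_lc.Main

namespace Pool.Agent.Results.MP_98674e_lc.EssFree

open Pool.Agent.P.MP_98674e_lc

/-- For every `n ≥ 2`, the isomorphism relation `≅_n` on the space `S_n` of rank `n` subgroups of
`ℚ^n` is essentially free. -/
theorem result : ∀ n : ℕ, 2 ≤ n → EssentiallyFree (Iso n) :=
  fun n _ => iso_essentiallyFree n

end Pool.Agent.Results.MP_98674e_lc.EssFree
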