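import Pool.Agent.P.MP_98674e_lc.QMain

namespace Pool.Agent.Results.MP_98674e_lc.QuasiEssFree

open Pool.Agent.P.MP_98674e_lc

/-- For every `n`, the quasi-isomorphism relation on the space `S_n` of rank `n` subgroups of
`ℚ^n` is essentially free. -/
theorem result : ∀ n : ℕ, EssentiallyFree (QIso n) :=
  qiso_essentiallyFree

end Pool.Agent.Results.MP_98674e_lc.QuasiEssFree
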